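import Pool.Agent.Helper28.C5.Two
import Pool.Agent.Helper20.C5.Asm

/-!
# Double cuts with two further points
-/

set_option linter.unusedSectionVars false
set_option autoImplicit false

open Finset

namespace Pool.Agent.Helper28.C5

theorem dbk2 : Pool.Agent.Helper20.C5.Dbk 2 := by
  intro α ι _ _ _ b V hMC he i0 j0 U h
  exact two hMC Pool.Agent.Helper74.C5.kp Pool.Agent.Helper74.C5.fm he h

end Pool.Agent.Helper28.C5

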