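import Pool.Agent.Helper28.C5.Qtwo
import Pool.Agent.Helper74.C5.Hall1

/-!
# Pairs which are not absorbed, from a matching; perfect matchings in double cuts
-/

set_option linter.unusedSectionVars false
set_option autoImplicit false

open Finset
open Pool.Agent.Helper20.C5 Pool.Agent.Helper74.C5 Pool.Agent.Helper34.C5

namespace Pool.Agent.Helper28.C5

variable {α ι : Type} [DecidableEq α] [DecidableEq ι] [Fintype ι]
variable {b : ι → Finset α} {V U : Finset α} {i0 j0 : ι} {k : ℕ}

/-- The pair `x, y` is not absorbed by `C0` if the other points are matched to the other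
components. -/
theorem DV.na (h : DV b V U i0 j0 k) (hsys : Sys b V) {C0 : Finset α} (hC0 : C0 ∈ cps b U)
    {x y : α} (hx : x ∈ V \ U) (hy : y ∈ V \ U) (g : Finset α → α)
    (hg : ∀ C ∈ cps b U, C ≠ C0 → g C ∈ V \ U ∧ Aj b (g C) C)
    (hcov : ∀ u ∈ V \ U, u ∉ b j0 → u = x ∨ u = y ∨ ∃ C ∈ cps b U, C ≠ C0 ∧ g C = u) :
    tau b C0 + 1 ≤ tau b (C0 ∪ {x, y}) := by
  classical
  have hcb := hsys.cb
  have hT : ∀ C ∈ cps b U, (if C = C0 then ({x, y} : Finset α) else {g C}) ⊆ V \ U := by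
    intro C hC
    by_cases h1 : C = C0
    · rw [if_pos h1]
      intro z hz
      rw [mem_insert, mem_singleton] at hz
      rcases hz with rfl | rfl
      · exact hx
      · exact hy
    · rw [if_neg h1]
      exact singleton_subset_iff.mpr (hg C hC h1).1
  have h1 := h.cover hcb (fun C => if C = C0 then ({x, y} : Finset α) else {g C}) hT
    (R := b j0 ∩ V) (r := 1) (cv_block j0 inter_subset_left) (by
      intro u hu
      rw [mem_union, mem_biUnion]
      by_cases hj : u ∈ b j0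
      · exact Or.inr (mem_inter.mpr ⟨hj, (mem_sdiff.mp hu).1⟩)
      · left
        rcases hcov u hu hj with h2 | h2 | ⟨C, hC, h2, h3⟩
        · refine ⟨C0, hC0, ?_⟩
          rw [if_pos rfl, h2]
          exact mem_insert_self _ _
        · refine ⟨C0, hC0, ?_⟩
          rw [if_pos rfl, h2]
          exact mem_insert_of_mem (mem_singleton_self _)
        · refine ⟨C, hC, ?_⟩
          rw [if_neg h2, h3]
          exact mem_singleton_self _)
  have h2 : ∑ C ∈ cps b U, tau b (C ∪ (if C = C0 then ({x, y} : Finset α) else {g C})) ≤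
      ∑ C ∈ (cps b U).erase C0, tau b C + tau b (C0 ∪ {x, y}) := by
    rw [← sum_erase_add _ _ hC0, if_pos rfl]
    apply Nat.add_le_add_right
    apply sum_le_sum
    intro C hC
    rw [mem_erase] at hC
    rw [if_neg hC.1]
    exact absorb_aj (hcb.mono ((cps_sub hC.2).trans h.sub)) (h.typ C hC.2) (hg C hC.2 hC.1).2
  have h3 : ∑ C ∈ cps b U, tau b C = ∑ C ∈ (cps b U).erase C0, tau b C + tau b C0 :=
    (sum_erase_add _ _ hC0).symm
  omega

/-- The pair cap for `e = 0`. -/
theorem DV.cap0 (h : DV b V U i0 j0 k) (hKP : KP) (hsys : Sys b V) {C : Finset α}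
    (hC : C ∈ cps b U) (he : ee b C = 0) {G H : Finset α} (hG : G ⊆ V \ U) (hH : H ⊆ V \ U)
    (hGH : Disjoint G H) (habs : ∀ x ∈ G, ∀ y ∈ H, tau b C + 1 ≤ tau b (C ∪ {x, y}))
    (h2 : 2 ≤ dg b G C) : dg b H C ≤ 1 := by
  by_contra h3
  rw [not_le] at h3
  have h4 := h.cap hKP hsys hC hG hH hGH (a := 2) (c := 2) (by norm_num) le_rfl (by norm_num)
    h2 h3 habs
  rw [he] at h4
  have h5 : (0 : ℤ) ≤ ((sp b V ∩ C).card : ℤ) := Int.natCast_nonneg _
  norm_num at h4
  omega

/-- A perfect matching of the components of a double cut into `P u A`. -/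
theorem DV.pm (h : DV b V U i0 j0 k) (hsys : Sys b V) (hQ : RF b V j0) {z : α}
    (hz : z ∈ V \ U) (hzj : z ∉ b j0) : ∃ g : Finset α → α,
      (∀ C ∈ cps b U, g C ∈ V \ U ∧ g C ∉ b j0 ∧ g C ≠ z ∧ Aj b (g C) C) ∧
      ∀ C ∈ cps b U, ∀ C' ∈ cps b U, g C = g C' → C = C' := by
  classical
  have hcb := hsys.cb
  have hcW : Cb b (V \ (b j0 ∩ V)) := hcb.mono sdiff_subset
  -- the set `S`
  have hUW : U ⊆ V \ (b j0 ∩ V) := by
    intro x hx
    refine mem_sdiff.mpr ⟨h.sub hx, fun h1 => ?_⟩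
    have h2 := h.qu
    rw [eq_empty_iff_forall_notMem] at h2
    exact h2 x (mem_inter.mpr ⟨(mem_inter.mp h1).1, hx⟩)
  set S := (V \ (b j0 ∩ V)) \ U with hSdef
  have hSW : S ⊆ V \ (b j0 ∩ V) := sdiff_subset
  have hU : (V \ (b j0 ∩ V)) \ S = U := Finset.sdiff_sdiff_eq_self hUW
  have hmS : ∀ x, x ∈ S ↔ x ∈ V \ U ∧ x ∉ b j0 := by
    intro x
    rw [hSdef, mem_sdiff, mem_sdiff, mem_sdiff, mem_inter]
    tauto
  have hzS : z ∈ S := (hmS z).mpr ⟨hz, hzj⟩
  have hScard : S.card = k + 3 := by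
    have h1 := card_sdiff_add_card_eq_card hUW
    rw [← hSdef] at h1
    have h2 := card_sdiff_add_card_eq_card (inter_subset_right : b j0 ∩ V ⊆ V)
    have h3 := h.card
    have h4 := h.q3
    omega
  have hcps : cps b ((V \ (b j0 ∩ V)) \ S) = cps b U := by rw [hU]
  have hmax : (cps b ((V \ (b j0 ∩ V)) \ S)).card + 1 = S.card := by
    rw [hcps, h.num, hScard]
  have hall := fun (T : Finset α) (hT : T ⊆ S) (hTS : T ≠ S) =>
    hall hcW hQ.con hQ.vc hSW ⟨z, hzS⟩ (by rw [hcps]; exact h.typ) hmax hT hTS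
  rw [hcps] at hall
  have h1 := (Finset.all_card_le_biUnion_card_iff_exists_injective
    (fun x : {x // x ∈ S.erase z} => (cps b U).filter fun C => Aj b x.1 C)).mp (by
      intro s
      have h2 := hall (s.map (Function.Embedding.subtype _)) (by
        intro x hx
        obtain ⟨y, -, rfl⟩ := mem_map.mp hx
        exact (mem_erase.mp y.2).2) (by
        intro h3
        rw [← h3] at hzS
        obtain ⟨y, -, hy⟩ := mem_map.mp hzS
        exact (mem_erase.mp y.2).1 hy)
      rw [card_map] at h2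
      refine h2.trans (card_le_card ?_)
      intro C hC
      obtain ⟨hC1, x, hx, hxC⟩ := mem_filter.mp hC
      obtain ⟨y, hy, rfl⟩ := mem_map.mp hx
      exact mem_biUnion.mpr ⟨y, hy, mem_filter.mpr ⟨hC1, hxC⟩⟩)
  obtain ⟨φ, hφ, hφ2⟩ := h1
  -- surjectivity
  have hφ3 : ∀ x, φ x ∈ cps b U ∧ Aj b x.1 (φ x) := fun x => mem_filter.mp (hφ2 x)
  have hcardX : Fintype.card {x // x ∈ S.erase z} = k + 2 := by
    rw [Fintype.card_coe, card_erase_of_mem hzS, hScard]
    omega
  have himg : (univ.image φ) = cps b U := by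
    apply eq_of_subset_of_card_le
    · intro C hC
      obtain ⟨x, -, rfl⟩ := mem_image.mp hC
      exact (hφ3 x).1
    · rw [card_image_of_injective _ hφ, card_univ, hcardX, h.num]
  have hsurj : ∀ C ∈ cps b U, ∃ x, φ x = C := by
    intro C hC
    rw [← himg] at hC
    obtain ⟨x, -, hx⟩ := mem_image.mp hC
    exact ⟨x, hx⟩
  refine ⟨fun C => if hC : C ∈ cps b U then ((hsurj C hC).choose).1 else z, ?_, ?_⟩
  · intro C hC
    simp only [dif_pos hC]
    have h2 := (hsurj C hC).choose_spec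
    have h3 := ((hsurj C hC).choose).2
    have h4 := (hφ3 (hsurj C hC).choose).2
    rw [h2] at h4
    rw [mem_erase] at h3
    have h5 := (hmS _).mp h3.2
    exact ⟨h5.1, h5.2, h3.1, h4⟩
  · intro C hC C' hC' heq
    simp only [dif_pos hC, dif_pos hC'] at heq
    have h2 := (hsurj C hC).choose_spec
    have h3 := (hsurj C' hC').choose_spec
    rw [← h2, ← h3, Subtype.ext heq]

end Pool.Agent.Helper28.C5
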