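import Pool.Agent.Helper28.C5.Slb
import Pool.Agent.Helper74.C5.D1a

/-!
# A component and one attached point: the number of blocks to the rest
-/

set_option linter.unusedSectionVars false
set_option autoImplicit false

open Finset
open Pool.Agent.Helper20.C5 Pool.Agent.Helper74.C5 Pool.Agent.Helper34.C5

namespace Pool.Agent.Helper28.C5

variable {α ι : Type} [DecidableEq α] [DecidableEq ι] [Fintype ι]

/-- `Ph` of a set with `2 tau = m + 1`. -/
theorem ph_odd {b : ι → Finset α} {C : Finset α} (h : 2 * tau b C = C.card + 1) :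
    Ph b C = 22 * ee b C + 2 * (C.card : ℤ) - 7 := by
  have h1 : 2 * (tau b C : ℤ) = (C.card : ℤ) + 1 := by exact_mod_cast h
  unfold Ph ee
  linarith

/-- `Ph` of a set with `2 tau = m`. -/
theorem ph_even {b : ι → Finset α} {C : Finset α} (h : 2 * tau b C = C.card) :
    Ph b C = 22 * ee b C + 2 * (C.card : ℤ) := by
  have h1 : 2 * (tau b C : ℤ) = (C.card : ℤ) := by exact_mod_cast h
  unfold Ph ee
  linarith

/-- The blocks of `V` when `V` contains the disjoint sets `C` and `R`. -/
theorem nb_two {b : ι → Finset α} {V C R : Finset α} (hC : C ⊆ V) (hR : R ⊆ V) :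
    nb b R + nb b C ≤ nb b V + dg b R C := by
  unfold nb dg
  rw [← card_union_add_card_inter]
  apply Nat.add_le_add
  · apply card_le_card
    exact union_subset (mt_mono hR) (mt_mono hC)
  · apply card_le_card
    intro i hi
    rw [mem_inter] at hi
    rw [mem_filter]
    obtain ⟨x, hx, hxi⟩ := mem_mt.mp hi.1
    obtain ⟨y, hy, hyi⟩ := mem_mt.mp hi.2
    exact ⟨mem_univ i, ⟨x, mem_inter.mpr ⟨hxi, hx⟩⟩, ⟨y, mem_inter.mpr ⟨hyi, hy⟩⟩⟩

/-- **Q1.** -/
theorem qone {b : ι → Finset α} {V C R : Finset α} {a : α} (hI : IL V.card) (hsys : Sys b V)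
    (hCV : C ⊆ V) (hCv : Vc b C) (hC : 2 * tau b C = C.card + 1) (ha : a ∈ V) (haC : a ∉ C)
    (haj : Aj b a C) (hR : V \ (insert a C) = R) (hcon : Con b R) (hR7 : 7 ≤ R.card) :
    22 * ee b C + 2 * (C.card : ℤ) + 46 ≤ Ph b V + 44 * (dg b R C : ℤ) := by
  have hins : insert a C ⊆ V := insert_subset ha hCV
  have hRV : R ⊆ V := hR ▸ sdiff_subset
  have h1 := nb_two (b := b) hCV hRV
  have hcard : R.card + C.card + 1 = V.card := by
    have h2 := card_sdiff_add_card_eq_card hins
    rw [hR, card_insert_of_notMem haC] at h2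
    omega
  have hcb := hsys.cb
  have h2 : tau b V ≤ tau b R + tau b C := by
    have h3 : V = R ∪ (C ∪ {a}) := by
      ext x
      rw [← hR, mem_union, mem_sdiff, mem_insert, mem_union, mem_singleton]
      constructor
      · intro hx
        by_cases h4 : x = a ∨ x ∈ C
        · exact Or.inr h4.symm
        · exact Or.inl ⟨hx, h4⟩
      · rintro (h4 | h4 | h4)
        · exact h4.1
        · exact hCV h4
        · rw [h4]
          exact ha
    have h4 := absorb_aj (hcb.mono hCV) hCv haj
    have h5 : tau b (R ∪ (C ∪ {a})) ≤ tau b R + tau b (C ∪ {a}) :=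
      tau_union (hcb.mono hRV) (hcb.mono (union_subset hCV (singleton_subset_iff.mpr ha)))
    rw [← h3] at h5
    omega
  have hne : R.Nonempty := card_pos.mp (by omega)
  have hps := hI α ι b R hne (by omega) (hsys.mono hRV) hcon
  have h3 : 0 ≤ Ps b R := by
    rcases hps with h4 | h4 | h4
    · exact h4
    · have := h4.1
      omega
    · have := h4.1
      omega
  have h4 : (0 : ℤ) ≤ (n1 b R : ℤ) := Int.natCast_nonneg _
  unfold Ps at h3
  have h5 : 0 ≤ Ph b R := by linarith
  rw [show (22 * ee b C + 2 * (C.card : ℤ) + 46 : ℤ) = Ph b C + 53 by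
    rw [ph_odd hC]; ring]
  unfold Ph at h5 ⊢
  omega

end Pool.Agent.Helper28.C5
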