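import Pool.Agent.Helper28.C5.Qone

/-!
# Q1 in a double cut with one further point
-/

set_option linter.unusedSectionVars false
set_option autoImplicit false

open Finset
open Pool.Agent.Helper20.C5 Pool.Agent.Helper74.C5 Pool.Agent.Helper34.C5

namespace Pool.Agent.Helper28.C5

variable {α ι : Type} [DecidableEq α] [DecidableEq ι] [Fintype ι]

/-- The union of the two faces. -/
def PQ (b : ι → Finset α) (V : Finset α) (i0 j0 : ι) : Finset α := (b i0 ∩ V) ∪ (b j0 ∩ V)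

theorem con_block {b : ι → Finset α} {A : Finset α} {i : ι} (h : A ⊆ b i) : Con b A := by
  apply con_of_exit
  intro D hD hne hDA
  obtain ⟨u, hu⟩ := hne
  have h1 : ∃ w ∈ A, w ∉ D := by
    by_contra h2
    apply hDA
    apply Subset.antisymm hD
    intro w hw
    by_contra h3
    exact h2 ⟨w, hw, h3⟩
  obtain ⟨w, hw, hwD⟩ := h1
  exact ⟨i, u, hu, h (hD hu), w, hw, hwD, h hw⟩

variable {b : ι → Finset α} {V U : Finset α} {i0 j0 : ι} {a : α} {C : Fin 3 → Finset α}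

theorem D1.VU (h : D1 b V U i0 j0 a C) : V \ U = insert a (PQ b V i0 j0) := by
  ext x
  constructor
  · intro hx
    have hxV := (mem_sdiff.mp hx).1
    rw [mem_insert]
    unfold PQ
    rw [mem_union, mem_inter, mem_inter]
    rcases h.all x hx with h1 | h1 | h1
    · exact Or.inl h1
    · exact Or.inr (Or.inl ⟨h1, hxV⟩)
    · exact Or.inr (Or.inr ⟨h1, hxV⟩)
  · intro hx
    rw [mem_insert] at hx
    unfold PQ at hx
    rcases hx with rfl | hx
    · exact h.ha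
    · rcases mem_union.mp hx with hx | hx
      · exact h.dv.subP hx
      · exact h.dv.subQ hx

theorem D1.aPQ (h : D1 b V U i0 j0 a C) : a ∉ PQ b V i0 j0 := by
  unfold PQ
  rw [mem_union, mem_inter, mem_inter]
  rintro (h1 | h1)
  · exact h.ai h1.1
  · exact h.aj h1.1

theorem D1.PQ6 (h : D1 b V U i0 j0 a C) : (PQ b V i0 j0).card = 6 := by
  unfold PQ
  rw [card_union_of_disjoint h.dv.pq, h.dv.p3, h.dv.q3]

theorem D1.PQ_sub (h : D1 b V U i0 j0 a C) : PQ b V i0 j0 ⊆ V \ U := by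
  rw [(D1.VU h)]
  exact subset_insert _ _

theorem D1.disjC (h : D1 b V U i0 j0 a C) {i j : Fin 3} (hij : i ≠ j) :
    Disjoint (C i) (C j) :=
  cps_disj (h.mem i) (h.mem j) (fun h1 => hij (h.inj h1))

theorem D1.CU (h : D1 b V U i0 j0 a C) (i : Fin 3) : C i ⊆ U := cps_sub (h.mem i)

theorem D1.aC (h : D1 b V U i0 j0 a C) (i : Fin 3) : a ∉ C i :=
  fun h1 => (mem_sdiff.mp h.ha).2 (D1.CU h i h1)

/-- The rest. -/
theorem D1.rest (h : D1 b V U i0 j0 a C) {i j l : Fin 3} (hij : i ≠ j)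
    (hjl : j ≠ l) (hil : i ≠ l) :
    V \ (insert a (C i)) = (PQ b V i0 j0 ∪ C j) ∪ C l := by
  ext x
  rw [mem_sdiff, mem_insert, mem_union, mem_union]
  constructor
  · rintro ⟨hx, h1⟩
    rw [not_or] at h1
    by_cases hxU : x ∈ U
    · rcases h.Umem hxU hij hjl hil with h2 | h2 | h2
      · exact absurd h2 h1.2
      · exact Or.inl (Or.inr h2)
      · exact Or.inr h2
    · have h2 : x ∈ V \ U := mem_sdiff.mpr ⟨hx, hxU⟩
      rw [(D1.VU h), mem_insert] at h2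
      rcases h2 with h2 | h2
      · exact absurd h2 h1.1
      · exact Or.inl (Or.inl h2)
  · rintro ((h1 | h1) | h1)
    · have h2 := mem_sdiff.mp (D1.PQ_sub h h1)
      refine ⟨h2.1, ?_⟩
      rintro (h3 | h3)
      · rw [h3] at h1
        exact (D1.aPQ h) h1
      · exact h2.2 (D1.CU h i h3)
    · refine ⟨h.subV j h1, ?_⟩
      rintro (h3 | h3)
      · rw [h3] at h1
        exact (D1.aC h) j h1
      · exact (disjoint_left.mp (D1.disjC h hij)) h3 h1
    · refine ⟨h.subV l h1, ?_⟩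
      rintro (h3 | h3)
      · rw [h3] at h1
        exact (D1.aC h) l h1
      · exact (disjoint_left.mp (D1.disjC h hil)) h3 h1

theorem D1.attP' (h : D1 b V U i0 j0 a C) (i : Fin 3) : ∃ x ∈ b i0 ∩ V, Aj b x (C i) := by
  obtain ⟨x, hx, hxj, hxa, haj⟩ := h.dv.attP _ (h.mem i) a
  rcases h.all x hx with h1 | h1 | h1
  · exact absurd h1 hxa
  · exact ⟨x, mem_inter.mpr ⟨h1, (mem_sdiff.mp hx).1⟩, haj⟩
  · exact absurd h1 hxj

theorem D1.attQ' (h : D1 b V U i0 j0 a C) (i : Fin 3) : ∃ x ∈ b j0 ∩ V, Aj b x (C i) :=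
  D1.attP' h.symm i

theorem D1.con_rest (h : D1 b V U i0 j0 a C) {j l : Fin 3} :
    Con b ((PQ b V i0 j0 ∪ C j) ∪ C l) := by
  obtain ⟨p, hp, m, hpm, c, hc, hcm⟩ := D1.attP' h j
  obtain ⟨q, hq, m', hqm, c', hc', hcm'⟩ := D1.attQ' h j
  obtain ⟨p', hp', n, hpn, d, hd, hdn⟩ := D1.attP' h l
  have h1 : Con b ((b i0 ∩ V) ∪ C j) :=
    con_union (con_block inter_subset_left) (cps_con (h.mem j)) hp hpm hc hcm
  have h2 : Con b (((b i0 ∩ V) ∪ C j) ∪ (b j0 ∩ V)) :=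
    con_union h1 (con_block inter_subset_left) (mem_union_right _ hc') hcm' hq hqm
  have h3 : ((b i0 ∩ V) ∪ C j) ∪ (b j0 ∩ V) = PQ b V i0 j0 ∪ C j := by
    unfold PQ
    rw [union_assoc, union_comm (C j), ← union_assoc]
  rw [h3] at h2
  exact con_union h2 (cps_con (h.mem l))
    (mem_union_left _ (mem_union_left _ hp')) hpn hd hdn

/-- The blocks between a component and the rest. -/
theorem D1.dg_rest (h : D1 b V U i0 j0 a C) {i j l : Fin 3} (hij : i ≠ j) (hil : i ≠ l) :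
    dg b ((PQ b V i0 j0 ∪ C j) ∪ C l) (C i) = dg b (PQ b V i0 j0) (C i) := by
  unfold dg
  congr 1
  ext k
  rw [mem_filter, mem_filter]
  constructor
  · rintro ⟨h0, ⟨x, hx⟩, ⟨y, hy⟩⟩
    rw [mem_inter] at hx hy
    refine ⟨h0, ?_, ⟨y, mem_inter.mpr hy⟩⟩
    rcases mem_union.mp hx.2 with h1 | h1
    · rcases mem_union.mp h1 with h2 | h2
      · exact ⟨x, mem_inter.mpr ⟨hx.1, h2⟩⟩
      · exact absurd hx.1 (cps_sep (h.mem i) k y hy.2 x (mem_sdiff.mpr ⟨(D1.CU h) j h2,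
          fun h3 => (disjoint_left.mp (D1.disjC h hij)) h3 h2⟩) hy.1)
    · exact absurd hx.1 (cps_sep (h.mem i) k y hy.2 x (mem_sdiff.mpr ⟨(D1.CU h) l h1,
          fun h3 => (disjoint_left.mp (D1.disjC h hil)) h3 h1⟩) hy.1)
  · rintro ⟨h0, ⟨x, hx⟩, h2⟩
    rw [mem_inter] at hx
    exact ⟨h0, ⟨x, mem_inter.mpr ⟨hx.1, mem_union_left _ (mem_union_left _ hx.2)⟩⟩, h2⟩

/-- **Q1** in a double cut with one further point. -/
theorem D1.qone (h : D1 b V U i0 j0 a C) (hI : IL V.card) (hsys : Sys b V) {i : Fin 3}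
    (haj : Aj b a (C i)) :
    22 * ee b (C i) + 2 * ((C i).card : ℤ) + 46 ≤ Ph b V + 44 * (dg b (PQ b V i0 j0) (C i) : ℤ) := by
  have h3 : ∀ i : Fin 3, ∃ j l : Fin 3, i ≠ j ∧ j ≠ l ∧ i ≠ l := by decide
  obtain ⟨j, l, hij, hjl, hil⟩ := h3 i
  rw [← (D1.dg_rest h) hij hil]
  refine Pool.Agent.Helper28.C5.qone hI hsys (h.subV i) (h.dv.typ _ (h.mem i))
    (h.dv.tf _ (h.mem i)) (mem_sdiff.mp h.ha).1 (D1.aC h i) haj (D1.rest h hij hjl hil)
    (D1.con_rest h) ?_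
  have h4 : PQ b V i0 j0 ∪ C j ⊆ (PQ b V i0 j0 ∪ C j) ∪ C l := subset_union_left
  have h5 : Disjoint (PQ b V i0 j0) (C j) := by
    rw [disjoint_left]
    intro x hx hx2
    exact (mem_sdiff.mp (D1.PQ_sub h hx)).2 (D1.CU h j hx2)
  have h6 := card_le_card h4
  rw [card_union_of_disjoint h5, (D1.PQ6 h)] at h6
  have h7 := card_pos.mpr (cps_ne (h.mem j))
  omega

end Pool.Agent.Helper28.C5
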