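import Pool.Agent.Helper28.C5.Qone

/-!
# Q1 without connectivity of the rest
-/

set_option linter.unusedSectionVars false
set_option autoImplicit false

open Finset
open Pool.Agent.Helper20.C5 Pool.Agent.Helper74.C5 Pool.Agent.Helper34.C5

namespace Pool.Agent.Helper28.C5

variable {α ι : Type} [DecidableEq α] [DecidableEq ι] [Fintype ι]

/-- `Ph` of a proper subset is at least minus the number of components. -/
theorem ph_lower {b : ι → Finset α} {V R : Finset α} (hI : IL V.card) (hsys : Sys b V)
    (hcon : Con b V) (hR : R ⊆ V) (hRV : R.card < V.card) :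
    -((cps b R).card : ℤ) ≤ Ph b R := by
  have hsR := hsys.mono hR
  rw [Ph_cps hsR.cb]
  have h8 : ∑ _C ∈ cps b R, (-1 : ℤ) ≤ ∑ C ∈ cps b R, Ph b C := by
    apply sum_le_sum
    intro C hC
    have hCs := cps_sub hC
    have hsC : Sys b C := hsR.mono hCs
    have hlt : C.card < V.card := (card_le_card hCs).trans_lt hRV
    have h1 : (0 : ℤ) ≤ (n1 b C : ℤ) := Int.natCast_nonneg _
    rcases hI α ι b C (cps_ne hC) hlt hsC (cps_con hC) with h9 | h9 | h9
    · unfold Ps at h9
      linarith
    · exfalso
      refine not_dt hsys hcon (hCs.trans hR) (cps_ne hC) ?_ h9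
      rw [sdiff_nonempty]
      intro h2
      have h3 := card_le_card h2
      omega
    · obtain ⟨h10, h11, h12⟩ := h9
      unfold Ph
      rw [h10, h11, h12]
      norm_num
  rw [sum_const, nsmul_eq_mul] at h8
  linarith

/-- The components of the rest after the removal of `C` and one point. -/
theorem cps_rest_le {b : ι → Finset α} {V C R : Finset α} {a : α} (hsys : Sys b V)
    (hcon : Con b V) (hCV : C ⊆ V) (ha : a ∈ V) (hR : V \ (insert a C) = R) :
    (cps b R).card ≤ 5 + dg b R C := by
  have h1 : (cps b R).card ≤ ((univ.filter fun i => a ∈ b i) ∪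
      (univ.filter fun i => (b i ∩ R).Nonempty ∧ (b i ∩ C).Nonempty)).card := by
    apply cps_card_le (Subset.refl _)
    intro N hN
    have hins : insert a C ⊆ V := insert_subset ha hCV
    have hinter : insert a C ∩ V = insert a C := inter_eq_left.mpr hins
    have hN' := hN
    rw [← hR] at hN'
    obtain ⟨i, hi, hi2⟩ := att hcon (by rw [hinter]; exact insert_nonempty a C) hN'
    refine ⟨i, ?_, hi⟩
    rw [hinter] at hi2
    obtain ⟨x, hx, hxi⟩ := mem_mt.mp hi
    obtain ⟨y, hy, hyi⟩ := mem_mt.mp hi2
    rw [mem_union, mem_filter, mem_filter]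
    rcases mem_insert.mp hy with hy | hy
    · rw [hy] at hyi
      exact Or.inl ⟨mem_univ i, hyi⟩
    · exact Or.inr ⟨mem_univ i, ⟨x, mem_inter.mpr ⟨hxi, cps_sub hN hx⟩⟩,
        ⟨y, mem_inter.mpr ⟨hyi, hy⟩⟩⟩
  have h2 := h1.trans (card_union_le _ _)
  rw [hsys.deg a ha] at h2
  exact h2

/-- **Q1** without connectivity, for a component with excess zero. -/
theorem qtwo {b : ι → Finset α} {V C R : Finset α} {a : α} (hI : IL V.card) (hsys : Sys b V)
    (hcon : Con b V) (hCV : C ⊆ V) (hCv : Vc b C) (hC : 2 * tau b C = C.card + 1) (ha : a ∈ V)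
    (haC : a ∉ C) (haj : Aj b a C) (hR : V \ (insert a C) = R) (he : ee b C = 0)
    (hph : Ph b V ≤ 0) : 2 ≤ dg b R C := by
  have hins : insert a C ⊆ V := insert_subset ha hCV
  have hRV : R ⊆ V := hR ▸ sdiff_subset
  have h1 := nb_two (b := b) hCV hRV
  have hcard : R.card + C.card + 1 = V.card := by
    have h2 := card_sdiff_add_card_eq_card hins
    rw [hR, card_insert_of_notMem haC] at h2
    omega
  have hcb := hsys.cb
  have h2 : tau b V ≤ tau b R + tau b C := by
    have h3 : V = R ∪ (C ∪ {a}) := by
      ext x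
      rw [← hR, mem_union, mem_sdiff, mem_insert, mem_union, mem_singleton]
      constructor
      · intro hx
        by_cases h4 : x = a ∨ x ∈ C
        · exact Or.inr h4.symm
        · exact Or.inl ⟨hx, h4⟩
      · rintro (h4 | h4 | h4)
        · exact h4.1
        · exact hCV h4
        · rw [h4]
          exact ha
    have h4 := absorb_aj (hcb.mono hCV) hCv haj
    have h5 : tau b (R ∪ (C ∪ {a})) ≤ tau b R + tau b (C ∪ {a}) :=
      tau_union (hcb.mono hRV) (hcb.mono (union_subset hCV (singleton_subset_iff.mpr ha)))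
    rw [← h3] at h5
    omega
  have h3 := ph_lower hI hsys hcon hRV (by omega)
  have h4 := cps_rest_le hsys hcon hCV ha hR
  by_contra h5
  rw [not_le] at h5
  unfold Ph at h3 hph
  unfold ee at he
  have h6 : 2 * (tau b C : ℤ) = (C.card : ℤ) + 1 := by exact_mod_cast hC
  omega

end Pool.Agent.Helper28.C5
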