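import Pool.Agent.Helper28.C5.Na
import Pool.Agent.Helper78.C5.Spread

/-!
# Double cuts with further points in which all components have excess zero
-/

set_option linter.unusedSectionVars false
set_option autoImplicit false

open Finset
open Pool.Agent.Helper20.C5 Pool.Agent.Helper74.C5 Pool.Agent.Helper34.C5

namespace Pool.Agent.Helper28.C5

variable {α ι : Type} [DecidableEq α] [DecidableEq ι] [Fintype ι]
variable {b : ι → Finset α} {V U : Finset α} {i0 j0 : ι} {k : ℕ}

/-- One side: a heavy point `a` is not absorbed with any other point. -/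
theorem DV.heavy (h : DV b V U i0 j0 k) (hKP : KP) (hsys : Sys b V) (hQ : RF b V j0)
    (he : ∀ C ∈ cps b U, ee b C = 0)
    (hrow : ∀ x ∈ V \ U, x ∉ b j0 → k + 2 ≤ dg b {x} U) {a : α} (ha : a ∈ V \ U)
    (haj : a ∉ b j0) (hrowa : k + 3 ≤ dg b {a} U) {C0 : Finset α} (hC0 : C0 ∈ cps b U)
    (ha2 : 2 ≤ dg b {a} C0) {y : α} (hy : y ∈ V \ U) (hyj : y ∉ b j0) (hya : y ≠ a) :
    tau b C0 + 1 ≤ tau b (C0 ∪ {a, y}) := by
  classical
  have hcb := hsys.cb
  -- from a matching to a pair which is not absorbed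
  have hX : Fintype.card {x // x ∈ (V \ U).filter fun x => x ∉ b j0} = k + 3 := by
    rw [Fintype.card_coe]
    have h1 := card_filter_add_card_filter_not (s := V \ U) (fun x => x ∉ b j0)
    have h2 : ((V \ U).filter fun x => ¬ x ∉ b j0) = b j0 ∩ V := by
      ext x
      rw [mem_filter, not_not, mem_inter]
      constructor
      · rintro ⟨h3, h4⟩
        exact ⟨h4, (mem_sdiff.mp h3).1⟩
      · rintro ⟨h3, h4⟩
        exact ⟨h.subQ (mem_inter.mpr ⟨h3, h4⟩), h3⟩
    rw [h2, h.q3, h.scard] at h1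
    omega
  have hI : Fintype.card {C // C ∈ cps b U} = k + 2 := by
    rw [Fintype.card_coe, h.num]
  have hmX : ∀ x : {x // x ∈ (V \ U).filter fun x => x ∉ b j0}, x.1 ∈ V \ U ∧ x.1 ∉ b j0 :=
    fun x => mem_filter.mp x.2
  have key : ∀ (f : {C // C ∈ cps b U} → {x // x ∈ (V \ U).filter fun x => x ∉ b j0})
      (i : {C // C ∈ cps b U}) (y : {x // x ∈ (V \ U).filter fun x => x ∉ b j0}),
      Function.Injective f → (∀ i, f i ≠ y) → (∀ j, j ≠ i → 1 ≤ dg b {(f j).1} j.1) →
      tau b i.1 + 1 ≤ tau b (i.1 ∪ {(f i).1, y.1}) := by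
    intro f i y hf hfy hw
    have himg : ∀ x, x ≠ y → ∃ j, f j = x := by
      have h1 : univ.image f = univ.erase y := by
        apply eq_of_subset_of_card_le
        · intro x hx
          obtain ⟨j, -, rfl⟩ := mem_image.mp hx
          exact mem_erase.mpr ⟨hfy j, mem_univ _⟩
        · rw [card_image_of_injective _ hf, card_erase_of_mem (mem_univ y), card_univ, card_univ,
            hX, hI]
          omega
      intro x hx
      have h2 : x ∈ univ.image f := by
        rw [h1]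
        exact mem_erase.mpr ⟨hx, mem_univ x⟩
      obtain ⟨j, -, hj⟩ := mem_image.mp h2
      exact ⟨j, hj⟩
    refine DV.na h hsys i.2 (hmX (f i)).1 (hmX y).1
      (fun C => if hC : C ∈ cps b U then (f ⟨C, hC⟩).1 else a) ?_ ?_
    · intro C hC hCi
      simp only [dif_pos hC]
      refine ⟨(hmX _).1, dg_aj (hw ⟨C, hC⟩ ?_)⟩
      intro h1
      apply hCi
      rw [← h1]
    · intro u hu huj
      by_cases h1 : u = y.1
      · exact Or.inr (Or.inl h1)
      · obtain ⟨j, hj⟩ := himg ⟨u, mem_filter.mpr ⟨hu, huj⟩⟩ (fun h2 => h1 (by rw [← h2]))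
        by_cases h2 : j = i
        · left
          rw [← h2, hj]
        · right
          right
          refine ⟨j.1, j.2, fun h3 => h2 (Subtype.ext h3), ?_⟩
          simp only [dif_pos j.2]
          rw [hj]
  have hsum : ∀ x : {x // x ∈ (V \ U).filter fun x => x ∉ b j0},
      ∑ i : {C // C ∈ cps b U}, dg b {x.1} i.1 = dg b {x.1} U := by
    intro x
    rw [dg_cps (hcb.mono h.sub)]
    exact sum_coe_sort (cps b U) (fun C => dg b {x.1} C)
  obtain ⟨f, hf, hfa, hfy, hfw⟩ := Pool.Agent.Helper78.C5.spread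
    (fun (x : {x // x ∈ (V \ U).filter fun x => x ∉ b j0}) (i : {C // C ∈ cps b U}) =>
      dg b {x.1} i.1) (by rw [hX, hI]) (by
      obtain ⟨g, hg, hg2⟩ := DV.pm h hsys hQ ha haj
      refine ⟨fun i => ⟨g i.1, mem_filter.mpr ⟨(hg i.1 i.2).1, (hg i.1 i.2).2.1⟩⟩, ?_, ?_⟩
      · intro i j hij
        have h1 := congrArg Subtype.val hij
        exact Subtype.ext (hg2 i.1 i.2 j.1 j.2 h1)
      · intro i
        exact aj_dg (hg i.1 i.2).2.2.2) (by
      rintro f i y hf hfy hw ⟨h1, h2⟩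
      have h3 := key f i y hf hfy hw
      have hne : (f i).1 ≠ y.1 := fun h4 => hfy i (Subtype.ext h4)
      have h4 := DV.cap0 h hKP hsys i.2 (he i.1 i.2) (G := {(f i).1}) (H := {y.1})
        (singleton_subset_iff.mpr (hmX _).1) (singleton_subset_iff.mpr (hmX _).1)
        (by
          rw [disjoint_singleton]
          exact hne) (by
          intro x hx z hz
          rw [mem_singleton.mp hx, mem_singleton.mp hz]
          exact h3) h1
      have h5 : 2 ≤ dg b {y.1} i.1 := h2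
      omega) (by
      intro x
      rw [hI, hsum]
      exact hrow x.1 (hmX x).1 (hmX x).2)
    ⟨a, mem_filter.mpr ⟨ha, haj⟩⟩ (by
      rw [hI, hsum]
      have h1 : k + 3 ≤ dg b {a} U := hrowa
      show k + 2 < dg b {a} U
      omega) ⟨C0, hC0⟩ ha2 ⟨y, mem_filter.mpr ⟨hy, hyj⟩⟩
    (fun h1 => hya (congrArg Subtype.val h1))
  have h1 := key f ⟨C0, hC0⟩ _ hf hfy hfw
  rw [hfa] at h1
  exact h1

/-- **All excesses zero**: impossible. -/
theorem DV.sig_zero (h : DV b V U i0 j0 k) (hKP : KP) (hI : IL V.card) (hsys : Sys b V)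
    (hcon : Con b V) (hph : Ph b V ≤ 0) (hP : RF b V i0) (hQ : RF b V j0)
    (he : ∀ C ∈ cps b U, ee b C = 0)
    (hrow : ∀ x ∈ V \ U, k + 2 ≤ dg b {x} U) {a : α} (ha : a ∈ V \ U) (hai : a ∉ b i0)
    (haj : a ∉ b j0) (hrowa : k + 3 ≤ dg b {a} U) : False := by
  classical
  have hcb := hsys.cb
  -- a heavy component
  obtain ⟨C0, hC0, ha2⟩ : ∃ C0 ∈ cps b U, 2 ≤ dg b {a} C0 := by
    by_contra h1
    have h2 : dg b {a} U ≤ ∑ _C ∈ cps b U, 1 := by
      rw [dg_cps (hcb.mono h.sub)]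
      apply sum_le_sum
      intro C hC
      by_contra h3
      exact h1 ⟨C, hC, by omega⟩
    rw [sum_const, smul_eq_mul, mul_one, h.num] at h2
    omega
  have hnab : ∀ y ∈ V \ U, y ≠ a → tau b C0 + 1 ≤ tau b (C0 ∪ {a, y}) := by
    intro y hy hya
    by_cases hyj : y ∈ b j0
    · have hyi : y ∉ b i0 := fun h1 => (disjoint_left.mp h.pq)
        (mem_inter.mpr ⟨h1, (mem_sdiff.mp hy).1⟩) (mem_inter.mpr ⟨hyj, (mem_sdiff.mp hy).1⟩)
      exact DV.heavy h.symm hKP hsys hP he (fun x hx _ => hrow x hx) ha hai hrowa hC0 ha2 hy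
        hyi hya
    · exact DV.heavy h hKP hsys hQ he (fun x hx _ => hrow x hx) ha haj hrowa hC0 ha2 hy
        hyj hya
  have hC0V := (cps_sub hC0).trans h.sub
  have haC : a ∉ C0 := fun h1 => (mem_sdiff.mp ha).2 (cps_sub hC0 h1)
  have h1 : dg b ((V \ U).erase a) C0 ≤ 1 := by
    apply DV.cap0 h hKP hsys hC0 (he C0 hC0) (G := {a}) (H := (V \ U).erase a)
      (singleton_subset_iff.mpr ha) (erase_subset _ _) (by
        rw [disjoint_singleton_left]
        exact notMem_erase a _) (by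
        intro x hx y hy
        rw [mem_singleton.mp hx]
        rw [mem_erase] at hy
        exact hnab y hy.2 hy.1) ha2
  have h2 := qtwo hI hsys hcon hC0V (h.typ C0 hC0) (h.tf C0 hC0) (mem_sdiff.mp ha).1 haC
    (dg_aj (by omega)) rfl (he C0 hC0) hph
  have h3 : dg b (V \ insert a C0) C0 ≤ dg b ((V \ U).erase a) C0 := by
    unfold dg
    apply card_le_card
    intro i hi
    obtain ⟨h4, ⟨x, hx⟩, ⟨c, hc⟩⟩ := mem_filter.mp hi
    rw [mem_inter] at hx hc
    have h5 := mem_sdiff.mp hx.2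
    rw [mem_insert, not_or] at h5
    refine mem_filter.mpr ⟨h4, ⟨x, mem_inter.mpr ⟨hx.1, mem_erase.mpr ⟨h5.2.1, ?_⟩⟩⟩,
      ⟨c, mem_inter.mpr hc⟩⟩
    refine mem_sdiff.mpr ⟨h5.1, fun h6 => ?_⟩
    exact cps_sep hC0 i c hc.2 x (mem_sdiff.mpr ⟨h6, h5.2.2⟩) hc.1 hx.1
  omega

end Pool.Agent.Helper28.C5
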