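import Pool.Agent.Helper34.C5.Glue
import Pool.Agent.Helper74.C5.CapV

/-!
# The bounded statement of the three levels from the bounded statement for `f = 0`
-/

set_option linter.unusedSectionVars false
set_option autoImplicit false

open Finset
open Pool.Agent.Helper20.C5 Pool.Agent.Helper74.C5 Pool.Agent.Helper34.C5

namespace Pool.Agent.Helper28.C5

variable {α ι : Type} [DecidableEq α] [DecidableEq ι] [Fintype ι]

theorem il_stepB {n : ℕ} (hC : ClV n) {b : ι → Finset α} {V : Finset α} (hn : V.card < n)
    (hI : IL V.card) (hne : V.Nonempty) (h : Sys b V) (hc : Con b V) :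
    0 ≤ Ps b V ∨ Dt b V ∨ T3 b V := by
  by_contra hcon
  rw [not_or, not_or, not_le] at hcon
  obtain ⟨hneg, hD, hT⟩ := hcon
  have hv := vc_of_neg hI h hc hneg
  have h1 := thmG' hne h hc hv
  have h2 := n1_slots h
  have h3 : (0 : ℤ) ≤ ((sp b V).card : ℤ) := Int.natCast_nonneg _
  have h4 : 0 < V.card := card_pos.mpr hne
  unfold hh ee at h1
  unfold Ps Ph at hneg
  by_cases h0 : 2 * tau b V = V.card
  · have h5 := hC α ι b V hn hne h hc hv h0 hD
    unfold Pot ee at h5
    have h6 : 2 * (tau b V : ℤ) = (V.card : ℤ) := by exact_mod_cast h0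
    have h7 : 2 * (n1 b V : ℤ) + 5 * (V.card : ℤ) ≤ 3 * (nb b V : ℤ) := by exact_mod_cast h2
    have h8 : (0 : ℤ) ≤ (n1 b V : ℤ) := Int.natCast_nonneg _
    linarith
  · by_cases h5 : 2 * tau b V = V.card + 1
    · have h7 : tau b V ≤ 3 := by omega
      have h8 : tau b V = 1 ∨ tau b V = 2 ∨ tau b V = 3 := by omega
      have h6 : V.card = 3 ∧ nb b V = 8 ∧ tau b V = 2 := by
        rcases h8 with h8 | h8 | h8
        · omega
        · refine ⟨by omega, ?_, h8⟩
          have h9 : nb b V ≤ 8 := by omega
          omega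
        · omega
      exact hT h6
    · have h6 : V.card + 2 ≤ 2 * tau b V ∨ 2 * tau b V + 1 ≤ V.card := by omega
      rcases h6 with h6 | h6
      · omega
      · omega

/-- The bounded statement. -/
theorem il_of {n : ℕ} (hC : ClV n) : IL n := by
  have key : ∀ m, m ≤ n → IL m := by
    intro m
    induction m with
    | zero => exact fun _ α ι _ _ _ b U _ h => absurd h (Nat.not_lt_zero _)
    | succ m ih =>
      intro hm α ι _ _ _ b U hne hU hs hc
      rcases Nat.lt_or_ge U.card m with h1 | h1
      · exact ih (by omega) α ι b U hne h1 hs hc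
      · have h2 : U.card = m := by omega
        exact il_stepB hC (by omega) (by rw [h2]; exact ih (by omega)) hne hs hc
  exact key n le_rfl

/-- A lower bound for all systems: at most `-10` for every component. -/
theorem ps_lower {n : ℕ} (hI : IL n) {b : ι → Finset α} {U : Finset α} (hU : U.card < n)
    (h : Sys b U) : (-10 : ℤ) * ((cps b U).card : ℤ) ≤ Ps b U := by
  rw [Ps_cps h.cb]
  have h8 : ∑ _C ∈ cps b U, (-10 : ℤ) ≤ ∑ C ∈ cps b U, Ps b C := by
    apply sum_le_sum
    intro C hC
    have hCs := cps_sub hC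
    have hsC : Sys b C := h.mono hCs
    have hlt : C.card < n := (card_le_card hCs).trans_lt hU
    rcases hI α ι b C (cps_ne hC) hlt hsC (cps_con hC) with h9 | h9 | h9
    · omega
    · rw [dt_ps (Sys.to4 hsC) h9]
    · rw [t3_ps (Sys.to4 hsC) h9]
      norm_num
  rw [sum_const, nsmul_eq_mul] at h8
  linarith

end Pool.Agent.Helper28.C5
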