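import Pool.Agent.Helper28.C5.SigZ
import Pool.Agent.Helper74.C5.D1a

/-!
# Double cuts of a minimal counterexample with two further points, or with one further point and
a third inner block
-/

set_option linter.unusedSectionVars false
set_option autoImplicit false

open Finset
open Pool.Agent.Helper20.C5 Pool.Agent.Helper74.C5
open Pool.Agent.Helper34.C5 hiding MC

namespace Pool.Agent.Helper28.C5

variable {α ι : Type} [DecidableEq α] [DecidableEq ι] [Fintype ι]
variable {b : ι → Finset α} {V U : Finset α} {i0 j0 : ι} {k : ℕ}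

theorem DV.ins2 (h : DV b V U i0 j0 k) : i0 ∈ ins b V U ∧ j0 ∈ ins b V U ∧ i0 ≠ j0 := by
  refine ⟨?_, ?_, ?_⟩
  · unfold ins
    rw [mem_filter]
    refine ⟨mem_univ _, card_pos.mp ?_, h.pu⟩
    rw [h.p3]
    norm_num
  · unfold ins
    rw [mem_filter]
    refine ⟨mem_univ _, card_pos.mp ?_, h.qu⟩
    rw [h.q3]
    norm_num
  · intro h1
    have h2 := h.pq
    rw [h1, disjoint_self] at h2
    have h3 := h.q3
    rw [h2] at h3
    exact absurd h3 (by simp)

theorem DV.two_le_ins (h : DV b V U i0 j0 k) : 2 ≤ (ins b V U).card := by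
  obtain ⟨h2, h3, h4⟩ := DV.ins2 h
  have h9 := card_le_card (show ({i0, j0} : Finset ι) ⊆ ins b V U from by
    intro i hi
    rw [mem_insert, mem_singleton] at hi
    rcases hi with rfl | rfl
    · exact h2
    · exact h3)
  rw [card_pair h4] at h9
  exact h9

theorem DV.degP (h : DV b V U i0 j0 k) (hsys : Sys b V) {x : α} (hx : x ∈ b i0 ∩ V) :
    6 ≤ dg b {x} U + (ins b V U).card := by
  rw [mem_inter] at hx
  have h1 := dg_ins_eq (U := U) hsys hx.2
  obtain ⟨h2, h3, h4⟩ := DV.ins2 h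
  have h7 : ((ins b V U).filter fun i => x ∈ b i) ⊆ (ins b V U).erase j0 := by
    intro i hi
    rw [mem_filter] at hi
    refine mem_erase.mpr ⟨?_, hi.1⟩
    rintro rfl
    exact (disjoint_left.mp h.pq) (mem_inter.mpr hx) (mem_inter.mpr ⟨hi.2, hx.2⟩)
  have h8 := card_le_card h7
  rw [card_erase_of_mem h3] at h8
  have h9 := card_pos.mpr ⟨j0, h3⟩
  omega

theorem DV.degA (h : DV b V U i0 j0 k) (hsys : Sys b V) {a : α} (ha : a ∈ V \ U)
    (hai : a ∉ b i0) (haj : a ∉ b j0) : 7 ≤ dg b {a} U + (ins b V U).card := by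
  rw [mem_sdiff] at ha
  have h1 := dg_ins_eq (U := U) hsys ha.1
  obtain ⟨h2, h3, h4⟩ := DV.ins2 h
  have h7 : ((ins b V U).filter fun i => a ∈ b i) ⊆ ((ins b V U).erase j0).erase i0 := by
    intro i hi
    rw [mem_filter] at hi
    refine mem_erase.mpr ⟨?_, mem_erase.mpr ⟨?_, hi.1⟩⟩
    · rintro rfl
      exact hai hi.2
    · rintro rfl
      exact haj hi.2
  have h8 := card_le_card h7
  have h10 : i0 ∈ (ins b V U).erase j0 := mem_erase.mpr ⟨h4, h2⟩
  rw [card_erase_of_mem h10, card_erase_of_mem h3] at h8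
  have h9 := DV.two_le_ins h
  omega

/-- `Ph` of a minimal counterexample. -/
theorem ph_neg (h : MC b V) (he : -3 ≤ ee b V) (he2 : ee b V ≤ -2) (hs : sp b V = ∅) :
    Ph b V ≤ 0 := by
  rw [ph_even h.tf]
  have h1 := h.neg
  unfold Pot at h1
  rw [hs, card_empty] at h1
  push_cast at h1
  omega

/-- All excesses are zero if there are enough inner blocks. -/
theorem DV.dead_zero (h : DV b V U i0 j0 k) (hMC : MC b V) (hKP : KP) (hFM : FM)
    (he : ee b V - ((sp b V).card : ℤ) ≤ -2) (hk : 1 ≤ k)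
    (hins : (ins b V U).card + k ≤ 4)
    (hsum : ∑ C ∈ cps b U, (ee b C - ((sp b V ∩ C).card : ℤ)) ≤ 0) : False := by
  classical
  have hsys := hMC.sys
  have hs := hMC.nosp hKP hFM he h.p3
  have hf := hMC.face hKP hFM he h.p3
  have hz : ∀ C ∈ cps b U, ee b C - ((sp b V ∩ C).card : ℤ) = 0 := by
    have h1 : ∑ C ∈ cps b U, (ee b C - ((sp b V ∩ C).card : ℤ)) = 0 :=
      le_antisymm hsum (sum_nonneg fun C hC => h.nn hKP hsys hC)
    exact (sum_eq_zero_iff_of_nonneg fun C hC => h.nn hKP hsys hC).mp h1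
  have he0 : ∀ C ∈ cps b U, ee b C = 0 := by
    intro C hC
    have h1 := hz C hC
    rw [hs, empty_inter, card_empty] at h1
    push_cast at h1
    linarith
  obtain ⟨a, ha⟩ : ((V \ U) \ ((b i0 ∩ V) ∪ (b j0 ∩ V))).Nonempty := by
    apply card_pos.mp
    rw [card_sdiff_of_subset (union_subset h.subP h.subQ), card_union_of_disjoint h.pq, h.p3,
      h.q3, h.scard]
    omega
  rw [mem_sdiff, mem_union, mem_inter, mem_inter] at ha
  have haV := (mem_sdiff.mp ha.1).1
  have hai : a ∉ b i0 := fun h1 => ha.2 (Or.inl ⟨h1, haV⟩)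
  have haj : a ∉ b j0 := fun h1 => ha.2 (Or.inr ⟨h1, haV⟩)
  have hse : -3 ≤ ee b V ∧ ee b V ≤ -2 := by
    have h1 := hf.2.2.1
    rw [hs, card_empty] at h1 he
    push_cast at h1 he
    constructor <;> linarith
  refine DV.sig_zero h hKP (il_of hMC.ih) hsys hMC.con (ph_neg hMC hse.1 hse.2 hs)
    (hMC.ring hKP hFM he h.p3) (hMC.ring hKP hFM he h.q3) he0 ?_ ha.1 hai haj ?_
  · intro x hx
    by_cases hxi : x ∈ b i0
    · have := DV.degP h hsys (mem_inter.mpr ⟨hxi, (mem_sdiff.mp hx).1⟩)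
      omega
    · by_cases hxj : x ∈ b j0
      · have := DV.degP h.symm hsys (mem_inter.mpr ⟨hxj, (mem_sdiff.mp hx).1⟩)
        omega
      · have := DV.degA h hsys hx hxi hxj
        omega
  · have := DV.degA h hsys ha.1 hai haj
    omega

/-- **Two further points**: impossible. -/
theorem two (hMC : MC b V) (hKP : KP) (hFM : FM) (he : ee b V - ((sp b V).card : ℤ) ≤ -2)
    (h : DV b V U i0 j0 2) : False := by
  have hs := hMC.nosp hKP hFM he h.p3
  have h1 := h.sum hMC.sys
  have h2 : 0 ≤ ∑ C ∈ cps b U, (ee b C - ((sp b V ∩ C).card : ℤ)) :=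
    sum_nonneg fun C hC => h.nn hKP hMC.sys hC
  have h3 := DV.two_le_ins h
  have h4 : (sp b V ∩ (V \ U)).card = 0 := by rw [hs, empty_inter, card_empty]
  rw [h4] at h1
  push_cast at h1
  exact DV.dead_zero h hMC hKP hFM he (by norm_num) (by omega) (by omega)

/-- `k ≤ 2`. -/
theorem k_le_two (hMC : MC b V) (hKP : KP) (hFM : FM) (he : ee b V - ((sp b V).card : ℤ) ≤ -2)
    (h : DV b V U i0 j0 k) : k ≤ 2 := by
  have hs := hMC.nosp hKP hFM he h.p3
  have h1 := h.sum hMC.sys
  have h2 : 0 ≤ ∑ C ∈ cps b U, (ee b C - ((sp b V ∩ C).card : ℤ)) :=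
    sum_nonneg fun C hC => h.nn hKP hMC.sys hC
  have h3 := DV.two_le_ins h
  have h4 : (sp b V ∩ (V \ U)).card = 0 := by rw [hs, empty_inter, card_empty]
  rw [h4] at h1
  push_cast at h1
  omega

/-- One further point: exactly two inner blocks. -/
theorem one_ins (hMC : MC b V) (hKP : KP) (hFM : FM) (he : ee b V - ((sp b V).card : ℤ) ≤ -2)
    (h : DV b V U i0 j0 1) : (ins b V U).card = 2 ∧
      ∑ C ∈ cps b U, (ee b C - ((sp b V ∩ C).card : ℤ)) = ee b V - ((sp b V).card : ℤ) + 4 := by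
  have hs := hMC.nosp hKP hFM he h.p3
  have h1 := h.sum hMC.sys
  have h2 : 0 ≤ ∑ C ∈ cps b U, (ee b C - ((sp b V ∩ C).card : ℤ)) :=
    sum_nonneg fun C hC => h.nn hKP hMC.sys hC
  have h3 := DV.two_le_ins h
  have h4 : (sp b V ∩ (V \ U)).card = 0 := by rw [hs, empty_inter, card_empty]
  rw [h4] at h1
  push_cast at h1
  have h5 : (ins b V U).card = 2 := by
    by_contra h6
    exact DV.dead_zero h hMC hKP hFM he (by norm_num) (by omega) (by omega)
  refine ⟨h5, ?_⟩
  rw [h1, h5]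
  push_cast
  ring

end Pool.Agent.Helper28.C5
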